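import Pool.Agent.Helper999.HMMain
import Pool.Agent.Helper999.HMUpper

set_option autoImplicit false

/-!
# The least Hadwiger number of a graph with automorphism group `A_n` is of order `n`
-/

namespace Pool.Agent.Results.MP_d4104f_co.LinearOrder

open Filter Asymptotics

/-- `X` has a subcontraction to `K_k`: there are `k` pairwise disjoint nonempty connected vertex
sets, any two of them joined by an edge of `X` (contract each of them to one vertex, delete the
rest). -/
def HasCompleteMinor {V : Type} (X : SimpleGraph V) (k : ℕ) : Prop :=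
  ∃ B : Fin k → Set V, (∀ i, (X.induce (B i)).Connected) ∧
    (∀ i j, i ≠ j → Disjoint (B i) (B j)) ∧
    ∀ i j, i ≠ j → ∃ a ∈ B i, ∃ b ∈ B j, X.Adj a b

/-- The Hadwiger number `h(X)` of a finite graph: the largest `k` such that `X` has a
subcontraction to `K_k`. -/
noncomputable def hadwiger {V : Type} [Finite V] (X : SimpleGraph V) : ℕ :=
  sSup {k : ℕ | HasCompleteMinor X k}

/-- `m(G) = min {h(X) : X a finite graph with Aut X ≅ G}`. -/
noncomputable def m (G : Type) [Group G] : ℕ :=
  sInf {h : ℕ | ∃ (V : Type) (_ : Finite V) (X : SimpleGraph V),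
    Nonempty ((X ≃g X) ≃* G) ∧ hadwiger X = h}

/-- the order of a complete minor is at most the number of vertices -/
theorem le_card {V : Type} [Finite V] {X : SimpleGraph V} {k : ℕ} (h : HasCompleteMinor X k) :
    k ≤ Nat.card V := by
  obtain ⟨B, h1, h2, -⟩ := h
  have hne : ∀ i, ∃ v, v ∈ B i := fun i => by
    obtain ⟨⟨v, hv⟩⟩ := (h1 i).nonempty
    exact ⟨v, hv⟩
  choose f hf using hne
  have hinj : Function.Injective f := by
    intro i j hij
    by_contra hne
    have h3 := hf i
    rw [hij] at h3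
    exact Set.disjoint_left.1 (h2 i j hne) h3 (hf j)
  have := Nat.card_le_card_of_injective f hinj
  rwa [Nat.card_eq_fintype_card, Fintype.card_fin] at this

theorem bddAbove {V : Type} [Finite V] (X : SimpleGraph V) :
    BddAbove {k : ℕ | HasCompleteMinor X k} := ⟨Nat.card V, fun _ h => le_card h⟩

theorem minor_zero {V : Type} (X : SimpleGraph V) : HasCompleteMinor X 0 :=
  ⟨fun i => i.elim0, fun i => i.elim0, fun i => i.elim0, fun i => i.elim0⟩

/-- the supremum is attained: `X` has a subcontraction to `K_{h(X)}` -/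
theorem hadwiger_spec {V : Type} [Finite V] (X : SimpleGraph V) :
    HasCompleteMinor X (hadwiger X) :=
  Nat.sSup_mem ⟨0, minor_zero X⟩ (bddAbove X)

theorem upper {n : ℕ} (hn : 4 ≤ n) : m (alternatingGroup (Fin n)) ≤ n + 2 := by
  have h1 : m (alternatingGroup (Fin n)) ≤ hadwiger (Helper999.HM.upGraph n) :=
    Nat.sInf_le ⟨_, inferInstance, Helper999.HM.upGraph n, Helper999.HM.up_aut hn, rfl⟩
  exact h1.trans (Helper999.HM.up_minor (hadwiger_spec (Helper999.HM.upGraph n)))

theorem lower {n : ℕ} (hn : 10 ^ 9 ≤ n) : n / 200 ≤ m (alternatingGroup (Fin n)) := by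
  apply le_csInf
  · exact ⟨_, _, inferInstance, Helper999.HM.upGraph n, Helper999.HM.up_aut (by omega), rfl⟩
  · rintro _ ⟨V, _, X, ⟨e⟩, rfl⟩
    exact le_csSup (bddAbove X) (Helper999.HM.lower_bound hn e (by omega))

/-- `m(A_n)` has order of magnitude `n`; in particular `log m(A_n) = o(n log n)`. -/
theorem result :
    (∀ n : ℕ, 10 ^ 9 ≤ n →
      n / 200 ≤ m (alternatingGroup (Fin n)) ∧ m (alternatingGroup (Fin n)) ≤ n + 2) ∧
    (fun n : ℕ => (m (alternatingGroup (Fin n)) : ℝ)) =Θ[atTop] (fun n : ℕ => (n : ℝ)) ∧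
    (fun n : ℕ => Real.log (m (alternatingGroup (Fin n)))) =o[atTop]
      (fun n : ℕ => (n : ℝ) * Real.log n) := by
  have h1 : ∀ n : ℕ, 10 ^ 9 ≤ n →
      n / 200 ≤ m (alternatingGroup (Fin n)) ∧ m (alternatingGroup (Fin n)) ≤ n + 2 :=
    fun n hn => ⟨lower hn, upper (by omega)⟩
  refine ⟨h1, ⟨?_, ?_⟩, ?_⟩
  · apply IsBigO.of_bound 2
    filter_upwards [eventually_ge_atTop (10 ^ 9)] with n hn
    obtain ⟨_, h3⟩ := h1 n hn
    rw [Real.norm_of_nonneg (Nat.cast_nonneg _), Real.norm_of_nonneg (Nat.cast_nonneg _)]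
    have h4 : m (alternatingGroup (Fin n)) ≤ 2 * n := by omega
    exact_mod_cast h4
  · apply IsBigO.of_bound 400
    filter_upwards [eventually_ge_atTop (10 ^ 9)] with n hn
    obtain ⟨h3, _⟩ := h1 n hn
    rw [Real.norm_of_nonneg (Nat.cast_nonneg _), Real.norm_of_nonneg (Nat.cast_nonneg _)]
    have h4 : n ≤ 400 * m (alternatingGroup (Fin n)) := by omega
    exact_mod_cast h4
  · have h2 : (fun n : ℕ => Real.log (m (alternatingGroup (Fin n)))) =O[atTop]
        (fun n : ℕ => (1 : ℝ) * Real.log n) := by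
      apply IsBigO.of_bound 2
      filter_upwards [eventually_ge_atTop (10 ^ 9)] with n hn
      obtain ⟨h3, h4⟩ := h1 n hn
      have h5 : 1 ≤ m (alternatingGroup (Fin n)) := by omega
      have h6 : (1 : ℝ) ≤ (m (alternatingGroup (Fin n)) : ℝ) := by exact_mod_cast h5
      have h7 : (m (alternatingGroup (Fin n)) : ℝ) ≤ (n : ℝ) ^ 2 := by
        have : m (alternatingGroup (Fin n)) ≤ n ^ 2 := by nlinarith
        exact_mod_cast this
      have h8 : (1 : ℝ) ≤ (n : ℝ) := by exact_mod_cast (by omega : 1 ≤ n)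
      rw [Real.norm_of_nonneg (Real.log_nonneg h6), one_mul,
        Real.norm_of_nonneg (Real.log_nonneg h8)]
      calc Real.log (m (alternatingGroup (Fin n))) ≤ Real.log ((n : ℝ) ^ 2) :=
            Real.log_le_log (by linarith) h7
        _ = 2 * Real.log n := by rw [Real.log_pow]; norm_num
    refine h2.trans_isLittleO ?_
    refine IsLittleO.mul_isBigO ?_ (isBigO_refl _ _)
    rw [isLittleO_one_left_iff]
    have h9 : Tendsto (fun n : ℕ => (n : ℝ)) atTop atTop := tendsto_natCast_atTop_atTop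
    exact h9.congr (fun n => (Real.norm_of_nonneg (Nat.cast_nonneg n)).symm)

end Pool.Agent.Results.MP_d4104f_co.LinearOrder
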